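import Pool.Agent.D0H84.NG.Inv

/-! # A Lagrangian submanifold is a graph near a point without vertical tangent vector -/

set_option autoImplicit false

open Set Filter Topology Metric Function
open scoped ContDiff RealInnerProductSpace NNReal

noncomputable section

namespace Pool.Agent.D0H98.NG

open Pool.Agent.D0H39.NG
open Pool.Agent.D0H84.NG (t_INV t_TAN local_inverse)

/-- points of `S` near `F s₀` are `F s` with `s` near `s₀` -/
lemma par_near {V : Type} [NormedAddCommGroup V] [NormedSpace ℝ V] {k : ℕ} {S : Set V}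
    {F : E k → V} (hF : IsPar k S F) {s₀ : E k} {p : E k → Prop} (hp : ∀ᶠ s in 𝓝 s₀, p s) :
    ∀ᶠ w in 𝓝 (F s₀), w ∈ S → ∃ s, p s ∧ F s = w := by
  obtain ⟨U, hU, hUo, hsU⟩ := _root_.eventually_nhds_iff.1 hp
  obtain ⟨U', hU', hUU⟩ := hF.isOpen U hUo
  have h1 : F s₀ ∈ F '' U := ⟨s₀, hsU, rfl⟩
  rw [hUU] at h1
  filter_upwards [hU'.mem_nhds h1.2] with w hw hwS
  have h2 : w ∈ F '' U := by
    rw [hUU]
    exact ⟨hwS, hw⟩
  obtain ⟨s, hs, rfl⟩ := h2
  exact ⟨s, hU s hs, rfl⟩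

theorem t_LIFT : S_LIFT := by
  intro m k N Λ hN hΛ hsub z hz hnv
  have hzN : z.1 ∈ N := (hsub hz).1
  obtain ⟨F, hF, hF0⟩ := hN z.1 hzN
  obtain ⟨G, hG, hG0⟩ := hΛ z hz
  obtain ⟨θ, hθ, hθ1, hθ2⟩ := t_INV (E m) k N F hF 0
  -- the projection in the charts
  obtain ⟨T, hT⟩ : ∃ T : E k → E k, ∀ s, T s = θ (G s).1 := ⟨_, fun s => rfl⟩
  have hTs : ContDiff ℝ ∞ T := by
    have : T = fun s => θ (G s).1 := funext hT
    rw [this]
    exact hθ.comp (contDiff_fst.comp hG.smooth)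
  have hT0 : T 0 = 0 := by
    rw [hT, hG0, ← hF0]
    exact hθ1.self_of_nhds
  have hGd : HasFDerivAt G (fderiv ℝ G 0) 0 := (hG.smooth.differentiable (by simp) 0).hasFDerivAt
  have hTd : HasFDerivAt T ((fderiv ℝ θ z.1).comp ((ContinuousLinearMap.fst ℝ (E m) (E m)).comp
      (fderiv ℝ G 0))) 0 := by
    have h1 : HasFDerivAt (fun s => (G s).1) ((ContinuousLinearMap.fst ℝ (E m) (E m)).comp
        (fderiv ℝ G 0)) 0 := (ContinuousLinearMap.fst ℝ (E m) (E m)).hasFDerivAt.comp 0 hGd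
    have h2 : HasFDerivAt θ (fderiv ℝ θ z.1) ((fun s => (G s).1) 0) := by
      show HasFDerivAt θ (fderiv ℝ θ z.1) (G 0).1
      rw [hG0]
      exact (hθ.differentiable (by simp) _).hasFDerivAt
    have h3 := h2.comp 0 h1
    have : T = θ ∘ fun s => (G s).1 := funext hT
    rw [this]
    exact h3
  have hinj : ∀ v, ((fderiv ℝ θ z.1).comp ((ContinuousLinearMap.fst ℝ (E m) (E m)).comp
      (fderiv ℝ G 0))) v = 0 → v = 0 := by
    intro v hv
    have hv' : fderiv ℝ θ z.1 (fderiv ℝ G 0 v).1 = 0 := hv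
    have ha : IsTan Λ z (fderiv ℝ G 0 v) := by
      rw [← hG0]
      exact (t_TAN _ k Λ G hG 0 _).2 ⟨v, rfl⟩
    have ha1 : IsTan N z.1 (fderiv ℝ G 0 v).1 := ha.fst fun w hw => (hsub hw).1
    rw [← hF0] at ha1
    obtain ⟨u, hu⟩ := (t_TAN _ k N F hF 0 _).1 ha1
    have hθF : fderiv ℝ θ z.1 (fderiv ℝ F 0 u) = u := by
      have h1 : HasFDerivAt (fun s => θ (F s)) ((fderiv ℝ θ (F 0)).comp (fderiv ℝ F 0)) 0 :=
        (hθ.differentiable (by simp) (F 0)).hasFDerivAt.comp 0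
          (hF.smooth.differentiable (by simp) 0).hasFDerivAt
      have h2 : HasFDerivAt (fun s => θ (F s)) (ContinuousLinearMap.id ℝ (E k)) 0 :=
        (hasFDerivAt_id (0 : E k)).congr_of_eventuallyEq hθ1
      have h3 := congrArg (fun L : E k →L[ℝ] E k => L u) (h1.unique h2)
      rw [hF0] at h3
      exact h3
    rw [← hu, hθF] at hv'
    have h0 : (fderiv ℝ G 0 v).1 = 0 := by
      rw [← hu, hv', map_zero]
    by_contra hne
    apply hnv
    refine ⟨(fderiv ℝ G 0 v).2, ?_, ?_⟩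
    · intro h2
      exact hne (hG.imm 0 v (Prod.ext h0 h2))
    · have e : ((0 : E m), (fderiv ℝ G 0 v).2) = fderiv ℝ G 0 v := Prod.ext h0.symm rfl
      rw [e]
      exact ha
  obtain ⟨L, hL⟩ : ∃ L : E k ≃L[ℝ] E k, (L : E k →L[ℝ] E k) =
      (fderiv ℝ θ z.1).comp ((ContinuousLinearMap.fst ℝ (E m) (E m)).comp (fderiv ℝ G 0)) := by
    set A := (fderiv ℝ θ z.1).comp ((ContinuousLinearMap.fst ℝ (E m) (E m)).comp (fderiv ℝ G 0))
      with hA
    have hAi : Injective (A : E k →ₗ[ℝ] E k) := by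
      rw [injective_iff_map_eq_zero]
      exact hinj
    refine ⟨(LinearEquiv.ofInjectiveEndo (A : E k →ₗ[ℝ] E k) hAi).toContinuousLinearEquiv, ?_⟩
    ext v
    rfl
  rw [← hL] at hTd
  obtain ⟨τ, hτ, hτ1⟩ := local_inverse T hTs 0 L hTd
  -- right inverse
  have hstrict : HasStrictFDerivAt T (L : E k →L[ℝ] E k) 0 := by
    have h1 := hTs.contDiffAt.hasStrictFDerivAt (x := (0 : E k)) (by simp)
    rwa [hTd.fderiv] at h1
  have hτ2 : ∀ᶠ y in 𝓝 (0 : E k), T (τ y) = y := by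
    have h1 : map T (𝓝 0) = 𝓝 (T 0) := hstrict.map_nhds_eq_of_equiv
    rw [hT0] at h1
    rw [← h1, eventually_map]
    filter_upwards [hτ1] with s hs
    rw [hs]
  have hτ0 : τ 0 = 0 := by
    have := hτ1.self_of_nhds
    rwa [hT0] at this
  refine ⟨fun q => G (τ (θ q)), hG.smooth.comp (hτ.comp hθ), ?_, ?_⟩
  · have hθz : θ z.1 = 0 := by
      rw [← hF0]
      exact hθ1.self_of_nhds
    have hc1 : Tendsto θ (𝓝 z.1) (𝓝 0) := by
      have := hθ.continuous.continuousAt (x := z.1)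
      rwa [ContinuousAt, hθz] at this
    have hc2 : Tendsto (fun q => (G (τ (θ q))).1) (𝓝 z.1) (𝓝 z.1) := by
      have hcont : Continuous fun q => (G (τ (θ q))).1 :=
        continuous_fst.comp (hG.smooth.continuous.comp (hτ.continuous.comp hθ.continuous))
      have := hcont.continuousAt (x := z.1)
      rw [ContinuousAt, hθz, hτ0, hG0] at this
      exact this
    rw [hF0] at hθ2
    filter_upwards [hc1.eventually hτ2, hθ2, hc2.eventually hθ2] with q h1 h2 h3 hq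
    have hmem : G (τ (θ q)) ∈ Λ := hG.mem _
    refine ⟨hmem, ?_⟩
    rw [hT] at h1
    have h4 := h3 (hsub hmem).1
    rw [h1, h2 hq] at h4
    exact h4.symm
  · have h1 := par_near hG hτ1
    rw [hG0] at h1
    filter_upwards [h1] with w hw hwΛ
    obtain ⟨s, hs, rfl⟩ := hw hwΛ
    show G (τ (θ (G s).1)) = G s
    rw [← hT, hs]

end Pool.Agent.D0H98.NG
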