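import Pool.Agent.D0H39.NG.Stm

/-! # Extension of smooth functions from closed sets -/

set_option autoImplicit false

open Set Filter Topology Metric Function
open scoped ContDiff RealInnerProductSpace NNReal Manifold

noncomputable section

namespace Pool.Agent.D0H98.NG

open Pool.Agent.D0H39.NG

theorem t_EXT : S_EXT := by
  intro V W _ _ _ _ _ S g hS hloc
  classical
  set t : V → Set W := fun y => if y ∈ S then {g y} else univ with ht
  have hconv : ∀ y, Convex ℝ (t y) := by
    intro y
    simp only [ht]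
    split_ifs
    · exact convex_singleton _
    · exact convex_univ
  have hl : ∀ x : V, ∃ U ∈ 𝓝 x, ∃ h : V → W, ContMDiffOn 𝓘(ℝ, V) 𝓘(ℝ, W) ((⊤ : ℕ∞) : WithTop ℕ∞) h U ∧
      ∀ y ∈ U, h y ∈ t y := by
    intro x
    by_cases hx : x ∈ S
    · obtain ⟨h, U, hU, hxU, hh, he⟩ := hloc x hx
      refine ⟨U, hU.mem_nhds hxU, h, hh.contMDiffOn, fun y hy => ?_⟩
      simp only [ht]
      split_ifs with hyS
      · exact he y hy hyS
      · exact mem_univ _
    · refine ⟨Sᶜ, hS.isOpen_compl.mem_nhds hx, fun _ => 0, contMDiffOn_const, fun y hy => ?_⟩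
      simp only [ht]
      rw [if_neg hy]
      exact mem_univ _
  obtain ⟨h, hh⟩ := exists_contMDiffMap_forall_mem_convex_of_local 𝓘(ℝ, V) (t := t)
    (n := (⊤ : ℕ∞)) hconv hl
  refine ⟨h, h.contMDiff.contDiff, fun y hy => ?_⟩
  have := hh y
  simp only [ht] at this
  rw [if_pos hy] at this
  exact this

end Pool.Agent.D0H98.NG
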