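import Pool.Agent.D0H39.NG.Bas
import Pool.Agent.D0H98.NG.Ext

/-! # Twisting functions from signs -/

set_option autoImplicit false

open Set Filter Topology Metric Function
open scoped ContDiff RealInnerProductSpace NNReal

noncomputable section

namespace Pool.Agent.D0H98.NG

open Pool.Agent.D0H39.NG

lemma fderiv_line {V : Type} [NormedAddCommGroup V] [NormedSpace ℝ V] {f : V → ℝ} {y v : V}
    {d : ℝ} (hf : DifferentiableAt ℝ f y) (h : HasDerivAt (fun t : ℝ => f (y + t • v)) d 0) :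
    fderiv ℝ f y v = d := by
  have h1 : HasDerivAt (fun t : ℝ => y + t • v) v 0 := by
    simpa using ((hasDerivAt_id (0 : ℝ)).smul_const v).const_add y
  have h2 : HasFDerivAt f (fderiv ℝ f y) ((fun t : ℝ => y + t • v) 0) := by
    simpa using hf.hasFDerivAt
  exact (h2.comp_hasDerivAt 0 h1).unique h

section
variable {m : ℕ} (B : E m → E m →L[ℝ] E m)

/-- the quadratic function of `B` -/
def K0 (y : E m × E m) : ℝ := 1 / 2 * ⟪B y.1 y.2, y.2⟫

variable {B} (hB : IsSymmetricField B)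
include hB

lemma K0_smooth : ContDiff ℝ ∞ (K0 B) := by
  have h1 : ContDiff ℝ ∞ (fun y : E m × E m => B y.1) := hB.smooth.comp contDiff_fst
  have h2 : ContDiff ℝ ∞ (fun y : E m × E m => B y.1 y.2) := h1.clm_apply contDiff_snd
  exact contDiff_const.mul (h2.inner ℝ contDiff_snd)

lemma K0_fderiv (y : E m × E m) (u : E m) :
    fderiv ℝ (K0 B) y ((0 : E m), u) = ⟪B y.1 u, y.2⟫ := by
  apply fderiv_line ((K0_smooth hB).differentiable (by simp) y)
  have e : (fun t : ℝ => K0 B (y + t • ((0 : E m), u))) = fun t : ℝ =>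
      K0 B y + t * ⟪B y.1 u, y.2⟫ + t ^ 2 * (1 / 2 * ⟪B y.1 u, u⟫) := by
    funext t
    unfold K0
    have e1 : (y + t • ((0 : E m), u)).1 = y.1 := by simp
    have e2 : (y + t • ((0 : E m), u)).2 = y.2 + t • u := by simp
    rw [e1, e2, map_add, map_smul, inner_add_left, inner_add_right, inner_add_right,
      inner_smul_left, inner_smul_right, inner_smul_left, inner_smul_right]
    have e3 : ⟪B y.1 y.2, u⟫ = ⟪B y.1 u, y.2⟫ := by
      rw [hB.symm, real_inner_comm]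
    rw [e3]
    simp only [conj_trivial]
    ring
  rw [e]
  have h1 : HasDerivAt (fun t : ℝ => K0 B y + t * ⟪B y.1 u, y.2⟫ +
      t ^ 2 * (1 / 2 * ⟪B y.1 u, u⟫)) (1 * ⟪B y.1 u, y.2⟫ +
        (2 * (0 : ℝ) ^ 1 * 1) * (1 / 2 * ⟪B y.1 u, u⟫)) 0 := by
    have a1 : HasDerivAt (fun t : ℝ => K0 B y + t * ⟪B y.1 u, y.2⟫) (1 * ⟪B y.1 u, y.2⟫) 0 :=
      ((hasDerivAt_id (0 : ℝ)).mul_const _).const_add _
    have a2 : HasDerivAt (fun t : ℝ => t ^ 2 * (1 / 2 * ⟪B y.1 u, u⟫))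
        ((2 * (0 : ℝ) ^ 1 * 1) * (1 / 2 * ⟪B y.1 u, u⟫)) 0 := by
      have := ((hasDerivAt_id (0 : ℝ)).pow 2).mul_const (1 / 2 * ⟪B y.1 u, u⟫)
      simpa using this
    exact a1.add a2
  convert h1 using 1
  ring

lemma Hp_of_eq {K : E m × E m → ℝ} {ε : ℝ} {w : E m × E m}
    (h : ∀ᶠ y in 𝓝 w, K y = ε * K0 B y) (u v : E m) : Hp K w u v = ε * ⟪B w.1 u, v⟫ := by
  unfold Hp
  have h1 : (fun y => fderiv ℝ K y ((0 : E m), u)) =ᶠ[𝓝 w] fun y => ε * ⟪B y.1 u, y.2⟫ := by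
    have h2 : K =ᶠ[𝓝 w] fun y => ε * K0 B y := h
    filter_upwards [h2.fderiv (𝕜 := ℝ)] with y hy
    rw [hy]
    have h3 : fderiv ℝ (fun y => ε * K0 B y) y = ε • fderiv ℝ (K0 B) y :=
      fderiv_const_mul ((K0_smooth hB).differentiable (by simp) y) ε
    rw [h3]
    show ε * fderiv ℝ (K0 B) y ((0 : E m), u) = _
    rw [K0_fderiv hB]
  rw [h1.fderiv_eq]
  have hs : ContDiff ℝ ∞ (fun y : E m × E m => ε * ⟪B y.1 u, y.2⟫) := by
    have h1 : ContDiff ℝ ∞ (fun y : E m × E m => B y.1) := hB.smooth.comp contDiff_fst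
    have h2 : ContDiff ℝ ∞ (fun y : E m × E m => B y.1 u) := h1.clm_apply contDiff_const
    exact contDiff_const.mul (h2.inner ℝ contDiff_snd)
  apply fderiv_line (hs.differentiable (by simp) w)
  have e : (fun t : ℝ => ε * ⟪B (w + t • ((0 : E m), v)).1 u, (w + t • ((0 : E m), v)).2⟫) =
      fun t : ℝ => ε * ⟪B w.1 u, w.2⟫ + t * (ε * ⟪B w.1 u, v⟫) := by
    funext t
    have e1 : (w + t • ((0 : E m), v)).1 = w.1 := by simp
    have e2 : (w + t • ((0 : E m), v)).2 = w.2 + t • v := by simp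
    rw [e1, e2, inner_add_right, inner_smul_right]
    ring
  rw [e]
  have := ((hasDerivAt_id (0 : ℝ)).mul_const (ε * ⟪B w.1 u, v⟫)).const_add (ε * ⟪B w.1 u, w.2⟫)
  simpa using this

end

/-- the vertical tangencies with a given sign form a closed set -/
lemma vert_closed (hT : S_TCL) {m k : ℕ} {N : Set (E m)} {Λ : Set (E m × E m)}
    (hΛ : IsLag k N Λ) (σ : E m × E m → ℝ) (c : ℝ)
    (hσ : ∀ z ∈ Λ, IsVertical Λ z → ∃ r : ℝ, 0 < r ∧ ∀ w ∈ Λ, ‖w - z‖ < r →
      (IsVertical Λ w → σ w = σ z)) :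
    IsClosed {z | z ∈ Λ ∧ IsVertical Λ z ∧ σ z = c} := by
  apply isClosed_of_closure_subset
  intro z hz
  rw [mem_closure_iff_seq_limit] at hz
  obtain ⟨x, hx, hlim⟩ := hz
  have hzΛ : z ∈ Λ := hΛ.compact.isClosed.mem_of_tendsto hlim
    (Eventually.of_forall fun n => (hx n).1)
  have hv : IsVertical Λ z := by
    have h1 : ∀ n, ∃ a : E m, ‖a‖ = 1 ∧ IsTan Λ (x n) (0, a) := by
      intro n
      obtain ⟨a, ha, hta⟩ := (hx n).2.1
      refine ⟨‖a‖⁻¹ • a, ?_, ?_⟩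
      · rw [norm_smul, norm_inv, norm_norm, inv_mul_cancel₀ (norm_ne_zero_iff.2 ha)]
      · have := hta.smul ‖a‖⁻¹
        have e : (‖a‖⁻¹ • ((0 : E m), a)) = ((0 : E m), ‖a‖⁻¹ • a) := by
          rw [Prod.smul_mk, smul_zero]
        rwa [e] at this
    choose a ha hta using h1
    have hs : ∀ n, a n ∈ sphere (0 : E m) 1 := fun n => by
      rw [mem_sphere_zero_iff_norm]
      exact ha n
    obtain ⟨b, hb, φ, hφ, hlimb⟩ := (isCompact_sphere (0 : E m) 1).tendsto_subseq hs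
    refine ⟨b, ?_, ?_⟩
    · intro h0
      rw [h0] at hb
      simp at hb
    · refine hT (E m × E m) k Λ hΛ.mfd (fun n => x (φ n)) (fun n => ((0 : E m), a (φ n))) z
        ((0 : E m), b) (fun n => (hx _).1) hzΛ (fun n => hta _) (hlim.comp hφ.tendsto_atTop) ?_
      exact tendsto_const_nhds.prodMk_nhds hlimb
  refine ⟨hzΛ, hv, ?_⟩
  obtain ⟨r, hr, h2⟩ := hσ z hzΛ hv
  have h3 : ∀ᶠ n in atTop, ‖x n - z‖ < r := by
    have := hlim.eventually (ball_mem_nhds z hr)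
    filter_upwards [this] with n hn
    rwa [← dist_eq_norm]
  obtain ⟨n, hn⟩ := h3.exists
  rw [← h2 (x n) (hx n).1 hn (hx n).2.1]
  exact (hx n).2.2

/-- a smooth function which is `1` near `A` and `-1` near `B` -/
lemma exists_e {m : ℕ} {A B : Set (E m × E m)} (hA : IsCompact A) (hB : IsCompact B)
    (hd : Disjoint A B) : ∃ e : E m × E m → ℝ, ContDiff ℝ ∞ e ∧ ∃ δ : ℝ, 0 < δ ∧
      (∀ z ∈ A, ∀ w, ‖w - z‖ < δ → e w = 1) ∧ ∀ z ∈ B, ∀ w, ‖w - z‖ < δ → e w = -1 := by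
  classical
  obtain ⟨δ, hδ, hdd⟩ := hd.exists_cthickenings hA hB.isClosed
  set A' := cthickening δ A with hA'
  set B' := cthickening δ B with hB'
  have cA : IsClosed A' := isClosed_cthickening
  have cB : IsClosed B' := isClosed_cthickening
  obtain ⟨e, he, heq⟩ := t_EXT (E m × E m) ℝ (A' ∪ B') (fun y => if y ∈ A' then 1 else -1)
    (cA.union cB) (by
      intro q hq
      rcases hq with hq | hq
      · refine ⟨fun _ => 1, B'ᶜ, cB.isOpen_compl, fun h => (disjoint_left.1 hdd) hq h,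
          contDiffOn_const, ?_⟩
        intro y hy hyS
        rcases hyS with h | h
        · simp only [if_pos h]
        · exact absurd h hy
      · refine ⟨fun _ => -1, A'ᶜ, cA.isOpen_compl, fun h => (disjoint_left.1 hdd) h hq,
          contDiffOn_const, ?_⟩
        intro y hy hyS
        simp only [if_neg hy])
  refine ⟨e, he, δ, hδ, ?_, ?_⟩
  · intro z hz w hw
    have h1 : w ∈ A' := by
      apply mem_cthickening_of_dist_le w z δ A hz
      rw [dist_eq_norm]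
      exact hw.le
    rw [heq w (Or.inl h1)]
    simp only [if_pos h1]
  · intro z hz w hw
    have h1 : w ∈ B' := by
      apply mem_cthickening_of_dist_le w z δ B hz
      rw [dist_eq_norm]
      exact hw.le
    rw [heq w (Or.inr h1)]
    simp only [if_neg fun h => (disjoint_left.1 hdd) h h1]

theorem t_SIGN : S_TCL → S_SIGN := by
  intro hT m k N Λ B hΛ hB ⟨σ, hσ1, hσ⟩
  have hloc : ∀ z ∈ Λ, IsVertical Λ z → ∃ r : ℝ, 0 < r ∧ ∀ w ∈ Λ, ‖w - z‖ < r →
      (IsVertical Λ w → σ w = σ z) := by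
    intro z hz hv
    obtain ⟨C, r, hr, h1, -⟩ := hσ z hz hv
    exact ⟨r, hr, fun w hw hwr => (h1 w hw hwr).1⟩
  have hcp : ∀ c : ℝ, IsCompact {z | z ∈ Λ ∧ IsVertical Λ z ∧ σ z = c} := fun c =>
    hΛ.compact.of_isClosed_subset (vert_closed hT hΛ σ c hloc) fun z hz => hz.1
  have hdis : Disjoint {z | z ∈ Λ ∧ IsVertical Λ z ∧ σ z = 1}
      {z | z ∈ Λ ∧ IsVertical Λ z ∧ σ z = -1} := by
    rw [disjoint_left]
    rintro z ⟨-, -, h1⟩ ⟨-, -, h2⟩
    rw [h1] at h2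
    norm_num at h2
  obtain ⟨e, he, δ, hδ, e1, e2⟩ := exists_e (hcp 1) (hcp (-1)) hdis
  have heσ : ∀ z ∈ Λ, IsVertical Λ z → ∀ w, ‖w - z‖ < δ → e w = σ z := by
    intro z hz hv w hw
    rcases hσ1 z with h | h
    · rw [h]; exact e1 z ⟨hz, hv, h⟩ w hw
    · rw [h]; exact e2 z ⟨hz, hv, h⟩ w hw
  have hHp : ∀ z ∈ Λ, IsVertical Λ z → ∀ w, ‖w - z‖ < δ → ∀ u v,
      Hp (fun y => e y * K0 B y) w u v = σ z * ⟪B w.1 u, v⟫ := by
    intro z hz hv w hw u v
    apply Hp_of_eq hB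
    have h1 : ∀ᶠ y in 𝓝 w, ‖y - z‖ < δ := by
      have hc : ContinuousAt (fun y => ‖y - z‖) w := by fun_prop
      exact hc.eventually (gt_mem_nhds hw)
    filter_upwards [h1] with y hy
    rw [heσ z hz hv y hy]
  refine ⟨fun y => e y * K0 B y, he.mul (K0_smooth hB), ?_⟩
  intro z hz hv
  obtain ⟨C, r, hr, h1, h2⟩ := hσ z hz hv
  refine ⟨C, min r δ, lt_min hr hδ, ?_, ?_⟩
  · intro w hw hwr a ha
    rw [hHp z hz hv w (hwr.trans_le (min_le_right _ _))]
    exact (h1 w hw (hwr.trans_le (min_le_left _ _))).2 a ha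
  · intro a ha hb
    refine h2 a ha fun b hbN => ?_
    have h3 := hb b hbN
    rw [hHp z hz hv z (by simpa using hδ)] at h3
    rcases hσ1 z with h | h
    · rw [h, one_mul] at h3
      exact h3
    · rw [h] at h3
      linarith

end Pool.Agent.D0H98.NG
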