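import Pool.Agent.D0H39.NG.Stm2

/-! # The quadratic form in cotangent coordinates -/

set_option autoImplicit false

open Set Topology Metric Function Filter
open scoped ContDiff RealInnerProductSpace

noncomputable section

namespace Pool.Agent.D0H98.NG

open Pool.Agent.D0H39 Pool.Agent.D0H39.NG

theorem flat_fst {m k : ℕ} {N : Set (NG.E m)} {F : NG.E k → NG.E m}
    {κ : NG.E k × NG.E k → NG.E m × NG.E m} (h : IsFlat k N F κ) (w a : NG.E k × NG.E k) :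
    (fderiv ℝ κ w a).1 = fderiv ℝ F w.1 a.1 := by
  have h1 : HasFDerivAt κ (fderiv ℝ κ w) w := (h.smooth.differentiable (by simp) w).hasFDerivAt
  have h2 : HasFDerivAt (fun w => (κ w).1)
      ((ContinuousLinearMap.fst ℝ (NG.E m) (NG.E m)).comp (fderiv ℝ κ w)) w :=
    hasFDerivAt_fst.comp w h1
  have h3 : HasFDerivAt F (fderiv ℝ F w.1) w.1 :=
    (h.par.smooth.differentiable (by simp) w.1).hasFDerivAt
  have h4 : HasFDerivAt (fun w : NG.E k × NG.E k => F w.1)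
      ((fderiv ℝ F w.1).comp (ContinuousLinearMap.fst ℝ (NG.E k) (NG.E k))) w :=
    HasFDerivAt.comp w h3 hasFDerivAt_fst
  have h5 : (fun w => (κ w).1) = fun w => F w.1 := funext h.base
  rw [h5] at h2
  have h6 := h2.unique h4
  exact congrArg (fun L : (NG.E k × NG.E k) →L[ℝ] NG.E m => L a) h6

/-- the derivative of the identity for the canonical form -/
theorem flat_snd {m k : ℕ} {N : Set (NG.E m)} {F : NG.E k → NG.E m}
    {κ : NG.E k × NG.E k → NG.E m × NG.E m} (h : IsFlat k N F κ) (w a : NG.E k × NG.E k)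
    (v : NG.E k) :
    ⟪(fderiv ℝ κ w a).2, fderiv ℝ F w.1 v⟫ =
      ⟪a.2, v⟫ - ⟪(κ w).2, fderiv ℝ (fderiv ℝ F) w.1 a.1 v⟫ := by
  have h1 : HasFDerivAt κ (fderiv ℝ κ w) w := (h.smooth.differentiable (by simp) w).hasFDerivAt
  have h2 : HasFDerivAt (fun w => (κ w).2)
      ((ContinuousLinearMap.snd ℝ (NG.E m) (NG.E m)).comp (fderiv ℝ κ w)) w :=
    hasFDerivAt_snd.comp w h1
  have hF' : ContDiff ℝ ∞ (fderiv ℝ F) := h.par.smooth.fderiv_right (by simp)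
  have h3 : HasFDerivAt (fderiv ℝ F) (fderiv ℝ (fderiv ℝ F) w.1) w.1 :=
    (hF'.differentiable (by simp) w.1).hasFDerivAt
  have h4 : HasFDerivAt (fun w : NG.E k × NG.E k => fderiv ℝ F w.1)
      ((fderiv ℝ (fderiv ℝ F) w.1).comp (ContinuousLinearMap.fst ℝ (NG.E k) (NG.E k))) w :=
    HasFDerivAt.comp w h3 hasFDerivAt_fst
  have h5 : HasFDerivAt (fun w : NG.E k × NG.E k => fderiv ℝ F w.1 v)
      ((((fderiv ℝ (fderiv ℝ F) w.1).comp
        (ContinuousLinearMap.fst ℝ (NG.E k) (NG.E k))).flip v)) w := by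
    have := h4.clm_apply (hasFDerivAt_const v w)
    simpa using this
  have h6 := h2.inner ℝ h5
  have h7 : HasFDerivAt (fun w : NG.E k × NG.E k => (⟪w.2, v⟫ : ℝ))
      ((innerSL ℝ v).comp (ContinuousLinearMap.snd ℝ (NG.E k) (NG.E k))) w := by
    have h8 : HasFDerivAt (fun w : NG.E k × NG.E k => innerSL ℝ v w.2)
      ((innerSL ℝ v).comp (ContinuousLinearMap.snd ℝ (NG.E k) (NG.E k))) w :=
      ((innerSL ℝ v).hasFDerivAt).comp w hasFDerivAt_snd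
    have h9 : (fun w : NG.E k × NG.E k => (⟪w.2, v⟫ : ℝ)) = fun w => innerSL ℝ v w.2 := by
      funext w
      rw [innerSL_apply_apply, real_inner_comm]
    rw [h9]
    exact h8
  have h8 : (fun w : NG.E k × NG.E k => (⟪(κ w).2, fderiv ℝ F w.1 v⟫ : ℝ)) =
      fun w => ⟪w.2, v⟫ := funext fun w => h.lam w v
  rw [h8] at h6
  have h9 := congrArg (fun L : (NG.E k × NG.E k) →L[ℝ] ℝ => L a) (h6.unique h7)
  simp only [ContinuousLinearMap.comp_apply, ContinuousLinearMap.coe_snd', innerSL_apply_apply] at h9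
  have h10 : (⟪v, a.2⟫ : ℝ) = ⟪a.2, v⟫ := real_inner_comm _ _
  rw [h10] at h9
  rw [← h9]
  simp [fderivInnerCLM_apply]

theorem t_FEST : S_FEST := by
  intro m k N F κ h w₀
  have hF' : ContDiff ℝ ∞ (fderiv ℝ F) := h.par.smooth.fderiv_right (by simp)
  have hF'' : ContDiff ℝ ∞ (fderiv ℝ (fderiv ℝ F)) := hF'.fderiv_right (by simp)
  -- the lower bound at the centre
  have hker : LinearMap.ker (fderiv ℝ F w₀.1 : NG.E k →ₗ[ℝ] NG.E m) = ⊥ := by
    rw [LinearMap.ker_eq_bot']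
    exact fun v hv => h.par.imm w₀.1 v hv
  obtain ⟨K, hK, hanti⟩ := LinearMap.exists_antilipschitzWith _ hker
  have hK' : (0 : ℝ) < K := hK
  have hlow : ∀ v, ‖v‖ ≤ K * ‖fderiv ℝ F w₀.1 v‖ := by
    intro v
    have := hanti.le_mul_dist v 0
    simpa using this
  -- continuity
  have c0 : Continuous fun w : NG.E k × NG.E k => fderiv ℝ (fderiv ℝ F) w.1 :=
    hF''.continuous.comp continuous_fst
  have c0' : Continuous fun w : NG.E k × NG.E k => ‖fderiv ℝ (fderiv ℝ F) w.1‖ :=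
    (continuous_norm (E := NG.E k →L[ℝ] NG.E k →L[ℝ] NG.E m)).comp c0
  have c1 : Continuous fun w : NG.E k × NG.E k => ‖(κ w).2‖ * ‖fderiv ℝ (fderiv ℝ F) w.1‖ :=
    (h.smooth.continuous.snd.norm).mul c0'
  have c2 : Continuous fun w : NG.E k × NG.E k => ‖fderiv ℝ F w.1‖ :=
    (hF'.continuous.comp continuous_fst).norm
  have c3 : Continuous fun w : NG.E k × NG.E k => ‖fderiv ℝ F w.1 - fderiv ℝ F w₀.1‖ :=
    ((hF'.continuous.comp continuous_fst).sub continuous_const).norm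
  have e1 : ∀ᶠ w in 𝓝 w₀, ‖(κ w).2‖ * ‖fderiv ℝ (fderiv ℝ F) w.1‖ <
      ‖(κ w₀).2‖ * ‖fderiv ℝ (fderiv ℝ F) w₀.1‖ + 1 :=
    c1.continuousAt.eventually_lt continuousAt_const (by linarith)
  have e2 : ∀ᶠ w in 𝓝 w₀, ‖fderiv ℝ F w.1‖ < ‖fderiv ℝ F w₀.1‖ + 1 :=
    c2.continuousAt.eventually_lt continuousAt_const (by linarith)
  have e3 : ∀ᶠ w in 𝓝 w₀, ‖fderiv ℝ F w.1 - fderiv ℝ F w₀.1‖ < 1 / (2 * K) := by
    refine c3.continuousAt.eventually_lt continuousAt_const ?_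
    rw [sub_self, norm_zero]
    positivity
  obtain ⟨r, hr, hball⟩ := Metric.eventually_nhds_iff_ball.1 ((e1.and e2).and e3)
  set A := ‖(κ w₀).2‖ * ‖fderiv ℝ (fderiv ℝ F) w₀.1‖ + 1 with hA
  set B := ‖fderiv ℝ F w₀.1‖ + 1 with hB
  have hA0 : 0 < A := by positivity
  have hB0 : 0 < B := by positivity
  refine ⟨A + B + 2 * K, r, by positivity, hr, fun w hw a => ?_⟩
  obtain ⟨⟨b1, b2⟩, b3⟩ := hball w (by rwa [mem_ball, dist_eq_norm])
  rw [flat_fst h]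
  refine ⟨?_, ?_, ?_⟩
  · have h1 := flat_snd h w a a.1
    rw [real_inner_comm] at h1
    rw [h1, real_inner_comm a.1 a.2]
    have h2 : ⟪a.1, a.2⟫ - ⟪(κ w).2, fderiv ℝ (fderiv ℝ F) w.1 a.1 a.1⟫ - ⟪a.1, a.2⟫ =
        -⟪(κ w).2, fderiv ℝ (fderiv ℝ F) w.1 a.1 a.1⟫ := by ring
    rw [h2, abs_neg]
    calc |⟪(κ w).2, fderiv ℝ (fderiv ℝ F) w.1 a.1 a.1⟫|
        ≤ ‖(κ w).2‖ * ‖fderiv ℝ (fderiv ℝ F) w.1 a.1 a.1‖ := abs_real_inner_le_norm _ _
      _ ≤ ‖(κ w).2‖ * (‖fderiv ℝ (fderiv ℝ F) w.1‖ * ‖a.1‖ * ‖a.1‖) :=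
        mul_le_mul_of_nonneg_left (ContinuousLinearMap.le_opNorm₂ _ _ _) (norm_nonneg _)
      _ = ‖(κ w).2‖ * ‖fderiv ℝ (fderiv ℝ F) w.1‖ * ‖a.1‖ ^ 2 := by ring
      _ ≤ (A + B + 2 * K) * ‖a.1‖ ^ 2 := by
        apply mul_le_mul_of_nonneg_right _ (by positivity)
        linarith
  · calc ‖fderiv ℝ F w.1 a.1‖ ≤ ‖fderiv ℝ F w.1‖ * ‖a.1‖ := ContinuousLinearMap.le_opNorm _ _
      _ ≤ (A + B + 2 * K) * ‖a.1‖ := by
        apply mul_le_mul_of_nonneg_right _ (norm_nonneg _)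
        linarith
  · have h1 : ‖fderiv ℝ F w₀.1 a.1‖ ≤ ‖fderiv ℝ F w.1 a.1‖ + 1 / (2 * K) * ‖a.1‖ := by
      have h2 : fderiv ℝ F w₀.1 a.1 = fderiv ℝ F w.1 a.1 -
          (fderiv ℝ F w.1 - fderiv ℝ F w₀.1) a.1 := by
        rw [_root_.sub_apply]
        abel
      rw [h2]
      refine (norm_sub_le _ _).trans (add_le_add_right ?_ _)
      exact (ContinuousLinearMap.le_opNorm _ _).trans
        (mul_le_mul_of_nonneg_right b3.le (norm_nonneg _))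
    have h3 := hlow a.1
    have h4 : ‖a.1‖ ≤ K * ‖fderiv ℝ F w.1 a.1‖ + ‖a.1‖ / 2 := by
      calc ‖a.1‖ ≤ K * (‖fderiv ℝ F w.1 a.1‖ + 1 / (2 * K) * ‖a.1‖) :=
            h3.trans (mul_le_mul_of_nonneg_left h1 hK'.le)
        _ = _ := by field_simp
    have h5 : ‖a.1‖ ≤ 2 * K * ‖fderiv ℝ F w.1 a.1‖ := by linarith
    refine h5.trans (mul_le_mul_of_nonneg_right ?_ (norm_nonneg _))
    linarith

end Pool.Agent.D0H98.NG
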