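import Pool.Agent.D0H39.NG.Stm2
import Pool.Agent.D0H39.NL.Bas
import Pool.Agent.D0H98.NL.Base
import Pool.Agent.D0H98.NL.Tan

/-! # The sign of a chart at a simple point which is not separated by the vertical tangencies -/

set_option autoImplicit false

open Set Topology Metric Function
open Filter hiding mk
open scoped ContDiff RealInnerProductSpace

noncomputable section

namespace Pool.Agent.D0H98.NG

open Pool.Agent.D0H39 Pool.Agent.D0H39.NL Pool.Agent.D0H98.NL

/-- in a chart whose vertical space is spanned by `e`: the vertical tangencies -/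
lemma vert_iff {n : ℕ} {Λ : Set (E n × E n)} {z : E n × E n} {P : E n →L[ℝ] E n}
    {η : E n → E n} {ρ r : ℝ} (h : IsChart Λ z P η ρ r) {e : E n} (he : P e = e) (he0 : e ≠ 0)
    (hspan : ∀ k, P k = k → ∃ c : ℝ, k = c • e) {w : E n × E n} (hw : w ∈ Λ) (hwz : ‖w - z‖ < r) :
    NG.IsVertical Λ w ↔ ⟪e, fderiv ℝ η (chi P w) e⟫ = 0 := by
  have hP := h.proj
  have he2 : 0 < ‖e‖ ^ 2 := by
    have := norm_pos_iff.2 he0
    positivity
  have hPu : ∀ u : E n, P u = (⟪e, u⟫ / ‖e‖ ^ 2) • e := by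
    intro u
    obtain ⟨c, hc⟩ := hspan (P u) (hP.1 u)
    have h1 : ⟪e, u⟫ = c * ‖e‖ ^ 2 := by
      rw [← inner_P hP he u, hc, inner_smul_right, real_inner_self_eq_norm_sq]
    rw [h1, mul_div_assoc, div_self he2.ne', mul_one]
    exact hc
  have hP0 : ∀ u : E n, P u = 0 ↔ ⟪e, u⟫ = 0 := by
    intro u
    rw [hPu, smul_eq_zero]
    constructor
    · rintro (h1 | h1)
      · rcases div_eq_zero_iff.1 h1 with h2 | h2
        · exact h2
        · exact absurd h2 he2.ne'
      · exact absurd h1 he0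
    · intro h1
      left
      rw [h1, zero_div]
  constructor
  · rintro ⟨a, ha0, ha⟩
    have h1 := (t_TAN n Λ z P η ρ r h w hw hwz (0, a)).1 ha
    have h2 : chi P ((0 : E n), a) = P a := by
      unfold chi
      simp
    rw [h2] at h1
    obtain ⟨c, hc⟩ := hspan (P a) (hP.1 a)
    have hc0 : c ≠ 0 := by
      rintro rfl
      rw [zero_smul] at hc
      rw [hc, map_zero] at h1
      apply ha0
      have h3 := congrArg Prod.snd h1
      unfold D0H39.NL.mk at h3
      simpa using h3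
    have h3 := congrArg Prod.fst h1
    have h4 : (0 : E n) = P a - P (P a) - P (fderiv ℝ η (chi P w) (P a)) := h3
    rw [hP.1, sub_self, zero_sub, eq_comm, neg_eq_zero, hc, map_smul, map_smul, smul_eq_zero] at h4
    rcases h4 with h4 | h4
    · exact absurd h4 hc0
    · exact (hP0 _).1 h4
  · intro h1
    have h2 := (hP0 _).2 h1
    refine ⟨e + fderiv ℝ η (chi P w) e, ?_, ?_⟩
    · intro h3
      have h4 := congrArg P h3
      rw [map_add, he, h2, add_zero, map_zero] at h4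
      exact he0 h4
    · have h3 := (t_TAN n Λ z P η ρ r h w hw hwz
        ((0 : E n), e + fderiv ℝ η (chi P w) e)).2 ?_
      · exact h3
      · have h4 : chi P ((0 : E n), e + fderiv ℝ η (chi P w) e) = e := by
          show (0 : E n) - P 0 + P (e + fderiv ℝ η (chi P w) e) = e
          rw [map_add, he, h2, map_zero]
          simp
        rw [h4]
        unfold D0H39.NL.mk
        rw [he, h2]
        simp

theorem t_SGN : NG.S_SGN := by
  intro n Λ z P η ρ r h hsimp hthin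
  obtain ⟨δ, M, hδ, -, hM⟩ := small_ball h one_pos
  have hP := h.proj
  have hbase := h.base
  -- vertical vectors
  have hvt : ∀ k, P k = k → IsTangent Λ z (0, k) := by
    intro k hk
    have := tangent_line h (center_mem h) k
    rw [h.vert k hk, hbase, hk] at this
    simpa using this
  by_cases hK : ∀ k, P k = k → k = 0
  · obtain ⟨ρ₁, r₁, hρ₁, -, hch, -⟩ := t_SHRINK n Λ z P η ρ r h δ 1 hδ one_pos
    refine ⟨ρ₁, r₁, 1, M, hch, Or.inl rfl, ?_, fun x hx => (hM x (ball_subset_ball hρ₁ hx)).1⟩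
    intro x _ k hk
    rw [hK k hk]
    simp
  push Not at hK
  obtain ⟨e, he, he0⟩ := hK
  have hspan : ∀ k, P k = k → ∃ c : ℝ, k = c • e := by
    intro k hk
    obtain ⟨s, t, hst, heq⟩ := hsimp e k (hvt e he) (hvt k hk)
    have ht : t ≠ 0 := by
      intro ht
      rw [ht, zero_smul, add_zero, smul_eq_zero] at heq
      rcases heq with h0 | h0
      · rcases hst with h1 | h1
        · exact h1 h0
        · exact h1 ht
      · exact he0 h0
    refine ⟨-(t⁻¹ * s), ?_⟩
    have h1 : t • k = -(s • e) := by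
      rw [eq_neg_iff_add_eq_zero, add_comm]; exact heq
    calc k = t⁻¹ • (t • k) := by rw [smul_smul, inv_mul_cancel₀ ht, one_smul]
      _ = _ := by rw [h1, smul_neg, smul_smul, neg_smul]
  obtain ⟨W, hWo, hzW, hWr, hconn⟩ := hthin r h.hr
  obtain ⟨r', hr', hball⟩ := Metric.isOpen_iff.1 hWo z hzW
  obtain ⟨ρ₁, r₁, hρ₁, -, hch, hin⟩ := t_SHRINK n Λ z P η ρ r h (min δ ρ) r' (lt_min hδ h.hρ) hr'
  have hM' : ∀ x ∈ ball (chi P z) ρ₁, ‖fderiv ℝ η x‖ ≤ M := fun x hx =>
    (hM x (ball_subset_ball (hρ₁.trans (min_le_left _ _)) hx)).1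
  have hxρ : ∀ x ∈ ball (chi P z) ρ₁, x ∈ ball (chi P z) ρ := fun x hx =>
    ball_subset_ball (hρ₁.trans (min_le_right _ _)) hx
  set A : Set (E n × E n) := {w | w ∈ Λ ∧ w ∈ W ∧ ¬ NG.IsVertical Λ w} with hA
  set D : E n × E n → ℝ := fun w => ⟪e, fderiv ℝ η (chi P w) e⟫ with hD
  have hD0 : ∀ w ∈ A, D w ≠ 0 := by
    rintro w ⟨h1, h2, h3⟩ h4
    exact h3 ((vert_iff h he he0 hspan h1 (hWr w h2)).2 h4)
  have hDc : ContinuousOn D A := by
    have h1 : ContinuousOn (fun w : E n × E n => fderiv ℝ η (chi P w)) A := by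
      refine (fderiv_cont h).comp (continuous_chi P).continuousOn ?_
      rintro w ⟨h1, h2, -⟩
      exact (h.cover w h1 (hWr w h2)).1
    exact continuousOn_const.inner (h1.clm_apply continuousOn_const)
  have hpt : ∀ x ∈ ball (chi P z) ρ₁, ⟪e, fderiv ℝ η x e⟫ ≠ 0 →
      D0H39.NL.mk P x (η x) ∈ A ∧ D (D0H39.NL.mk P x (η x)) = ⟪e, fderiv ℝ η x e⟫ := by
    intro x hx hne
    have h1 : D0H39.NL.mk P x (η x) ∈ W := hball (by
      rw [mem_ball, dist_eq_norm]
      exact hin x hx)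
    have h2 : D0H39.NL.mk P x (η x) ∈ Λ := h.mem x (hxρ x hx)
    have h3 : D (D0H39.NL.mk P x (η x)) = ⟪e, fderiv ℝ η x e⟫ := by
      show ⟪e, fderiv ℝ η (chi P (D0H39.NL.mk P x (η x))) e⟫ = _
      rw [Pool.Agent.D0H39.NL.chi_mk hP]
    refine ⟨⟨h2, h1, ?_⟩, h3⟩
    intro hv
    apply hne
    rw [← h3]
    exact (vert_iff h he he0 hspan h2 (hWr _ h1)).1 hv
  have hsame : ∀ w ∈ A, ∀ w' ∈ A, 0 < D w → 0 < D w' := by
    intro w hw w' hw' hpos
    by_contra hneg
    rw [not_lt] at hneg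
    have hlt : D w' < 0 := lt_of_le_of_ne hneg (hD0 w' hw')
    obtain ⟨y, hy, hy0⟩ := hconn.isPreconnected.intermediate_value hw' hw hDc
      (show (0 : ℝ) ∈ Icc (D w') (D w) from ⟨hlt.le, hpos.le⟩)
    exact hD0 y hy hy0
  by_cases hs : ∃ w ∈ A, 0 < D w
  · obtain ⟨w1, hw1, p1⟩ := hs
    refine ⟨ρ₁, r₁, -1, M, hch, Or.inr rfl, ?_, hM'⟩
    intro x hx k hk
    obtain ⟨c, rfl⟩ := hspan k hk
    have hx0 : 0 ≤ ⟪e, fderiv ℝ η x e⟫ := by
      by_cases h0 : ⟪e, fderiv ℝ η x e⟫ = 0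
      · exact h0.ge
      · obtain ⟨h1, h2⟩ := hpt x hx h0
        rw [← h2]
        exact (hsame w1 hw1 _ h1 p1).le
    rw [map_smul, inner_smul_left, inner_smul_right]
    simp only [conj_trivial]
    have : 0 ≤ c * (c * ⟪e, fderiv ℝ η x e⟫) := by
      rw [← mul_assoc]
      exact mul_nonneg (mul_self_nonneg c) hx0
    linarith
  · push Not at hs
    refine ⟨ρ₁, r₁, 1, M, hch, Or.inl rfl, ?_, hM'⟩
    intro x hx k hk
    obtain ⟨c, rfl⟩ := hspan k hk
    have hx0 : ⟪e, fderiv ℝ η x e⟫ ≤ 0 := by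
      by_cases h0 : ⟪e, fderiv ℝ η x e⟫ = 0
      · exact h0.le
      · obtain ⟨h1, h2⟩ := hpt x hx h0
        rw [← h2]
        exact hs _ h1
    rw [map_smul, inner_smul_left, inner_smul_right]
    simp only [conj_trivial]
    have : 0 ≤ c * c * (-⟪e, fderiv ℝ η x e⟫) := mul_nonneg (mul_self_nonneg c) (by linarith)
    linarith

end Pool.Agent.D0H98.NG
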