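import Pool.Agent.D0H39.NG.Stm2
import Pool.Agent.D0H39.NL.Bas
import Pool.Agent.D0H98.NL.Base
import Pool.Agent.D0H98.NL.Tan

/-! # Two signs at a vertical tangency -/

set_option autoImplicit false

open Set Topology Metric Function
open Filter hiding mk
open scoped ContDiff RealInnerProductSpace

noncomputable section

namespace Pool.Agent.D0H98.NG

open Pool.Agent.D0H39 Pool.Agent.D0H39.NL Pool.Agent.D0H98.NL

/-- a symmetric operator with small norm whose quadratic form is bounded by a multiple of the square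
of the norm of the image -/
lemma symm_zero {n : ℕ} (T : E n →L[ℝ] E n) (hT : ∀ x y, ⟪T x, y⟫ = ⟪x, T y⟫) {C : ℝ} (hC : 0 ≤ C)
    (hq : ∀ x, |⟪T x, x⟫| ≤ C * ‖T x‖ ^ 2) (hn : C * ‖T‖ < 1) : T = 0 := by
  set q := C * ‖T‖ ^ 2 with hqdef
  have hq0 : 0 ≤ q := by positivity
  have h1 : ∀ x, |⟪T x, x⟫| ≤ q * ‖x‖ ^ 2 := by
    intro x
    refine (hq x).trans ?_
    have h2 : ‖T x‖ ^ 2 ≤ (‖T‖ * ‖x‖) ^ 2 := pow_le_pow_left₀ (norm_nonneg _) (T.le_opNorm x) 2
    calc C * ‖T x‖ ^ 2 ≤ C * (‖T‖ * ‖x‖) ^ 2 := mul_le_mul_of_nonneg_left h2 hC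
      _ = q * ‖x‖ ^ 2 := by rw [hqdef]; ring
  have h2 : ∀ x y, |⟪T x, y⟫| ≤ q / 2 * (‖x‖ ^ 2 + ‖y‖ ^ 2) := by
    intro x y
    have e1 : 4 * ⟪T x, y⟫ = ⟪T (x + y), x + y⟫ - ⟪T (x - y), x - y⟫ := by
      have e2 : ⟪T y, x⟫ = ⟪T x, y⟫ := by rw [hT, real_inner_comm]
      rw [map_add, map_sub]
      simp only [inner_add_left, inner_add_right, inner_sub_left, inner_sub_right]
      rw [e2]
      ring
    have e3 : ‖x + y‖ ^ 2 + ‖x - y‖ ^ 2 = 2 * (‖x‖ ^ 2 + ‖y‖ ^ 2) := by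
      have := parallelogram_law_with_norm ℝ x y
      nlinarith [this]
    have e4 := h1 (x + y)
    have e5 := h1 (x - y)
    rw [abs_le] at e4 e5 ⊢
    constructor
    · nlinarith [e4.1, e5.2]
    · nlinarith [e4.2, e5.1]
  have h3 : ∀ x, ‖T x‖ ≤ q * ‖x‖ := by
    intro x
    by_cases hx : x = 0
    · rw [hx, map_zero, norm_zero, mul_zero]
    by_cases hTx : T x = 0
    · rw [hTx, norm_zero]
      positivity
    have hx0 : 0 < ‖x‖ := norm_pos_iff.2 hx
    have hT0 : 0 < ‖T x‖ := norm_pos_iff.2 hTx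
    have h4 := h2 x ((‖x‖ / ‖T x‖) • T x)
    rw [inner_smul_right, real_inner_self_eq_norm_sq, norm_smul, Real.norm_eq_abs,
      abs_of_pos (div_pos hx0 hT0), div_mul_cancel₀ _ hT0.ne'] at h4
    have h5 : ‖x‖ / ‖T x‖ * ‖T x‖ ^ 2 = ‖x‖ * ‖T x‖ := by
      field_simp
    rw [h5, abs_of_pos (mul_pos hx0 hT0)] at h4
    have h6 : ‖x‖ * ‖T x‖ ≤ ‖x‖ * (q * ‖x‖) := by nlinarith [h4]
    exact le_of_mul_le_mul_left h6 hx0
  have h4 : ‖T‖ ≤ q := T.opNorm_le_bound hq0 h3
  by_contra hne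
  have h5 : 0 < ‖T‖ := norm_pos_iff.2 hne
  have h6 : ‖T‖ * 1 ≤ ‖T‖ * (C * ‖T‖) := by
    rw [mul_one]
    calc ‖T‖ ≤ q := h4
      _ = _ := by rw [hqdef]; ring
  have h7 := le_of_mul_le_mul_left h6 h5
  linarith

theorem t_TWO : NG.S_TWO := by
  intro n Λ z P η ρ r hz h hv h1 h2
  have hP := h.proj
  obtain ⟨C1, s1, hs1, H1⟩ := h1
  obtain ⟨C2, s2, hs2, H2⟩ := h2
  obtain ⟨a, ha0, ha⟩ := hv
  -- a vertical vector
  have hzr : ‖z - z‖ < r := by rw [sub_self, norm_zero]; exact h.hr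
  have e0 := (t_TAN n Λ z P η ρ r h z hz hzr (0, a)).1 ha
  have e1 : chi P ((0 : E n), a) = P a := by
    unfold chi
    simp
  rw [e1] at e0
  set k₀ := P a with hk₀
  have hk : P k₀ = k₀ := hP.1 a
  have hk0 : k₀ ≠ 0 := by
    intro h3
    rw [h3, map_zero] at e0
    apply ha0
    have h4 := congrArg Prod.snd e0
    unfold D0H39.NL.mk at h4
    simpa using h4
  -- constants
  set C := max (max C1 C2) 1 with hC
  have hC1 : 1 ≤ C := le_max_right _ _
  have hCC1 : C1 ≤ C := (le_max_left _ _).trans (le_max_left _ _)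
  have hCC2 : C2 ≤ C := (le_max_right _ _).trans (le_max_left _ _)
  obtain ⟨δ, M, hδ, hδρ, hM⟩ := small_ball h (show (0 : ℝ) < 1 / (2 * C) by positivity)
  obtain ⟨ρ₁, r₁, hρ₁, hr₁, hch, hin⟩ := t_SHRINK n Λ z P η ρ r h δ (min s1 s2) hδ
    (lt_min hs1 hs2)
  -- the operator vanishes near the centre
  have key : ∀ x ∈ ball (chi P z) ρ₁, ∀ k, P k = k → P (fderiv ℝ η x k) = 0 := by
    intro x hx k hkk
    set T : E n →L[ℝ] E n := (P.comp (fderiv ℝ η x)).comp P with hT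
    have hTa : ∀ u, T u = P (fderiv ℝ η x (P u)) := fun u => rfl
    have hxρ : x ∈ ball (chi P z) ρ := ball_subset_ball (hρ₁.trans hδρ) hx
    have hT0 : T = 0 := by
      refine symm_zero T ?_ (by positivity : 0 ≤ C) ?_ ?_
      · intro u v
        rw [hTa, hTa, hP.2, h.symm x hxρ, hP.2]
      · intro u
        have hw := h.mem x hxρ
        have hwz := hin x hx
        have htan := tangent_line h hxρ (P u)
        have h3 := H1 _ hw (hwz.trans_le (min_le_left _ _)) _ htan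
        have h4 := H2 _ hw (hwz.trans_le (min_le_right _ _)) _ htan
        simp only [hP.1, sub_self, zero_sub] at h3 h4
        have h5 : ⟪-P (fderiv ℝ η x (P u)), P u + (fderiv ℝ η x (P u) -
            P (fderiv ℝ η x (P u)))⟫ = -⟪T u, u⟫ := by
          rw [inner_neg_left, inner_add_right, inner_comp hP (hP.1 _), add_zero, hTa,
            inner_P hP (hP.1 _)]
        rw [h5, norm_neg] at h3 h4
        rw [← hTa] at h3 h4
        have h6 : 0 ≤ ‖T u‖ ^ 2 := by positivity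
        rw [abs_le]
        constructor
        · nlinarith [mul_le_mul_of_nonneg_right hCC2 h6]
        · nlinarith [mul_le_mul_of_nonneg_right hCC1 h6]
      · have h3 := (hM x (ball_subset_ball hρ₁ hx)).2
        calc C * ‖T‖ ≤ C * (1 / (2 * C)) := mul_le_mul_of_nonneg_left h3 (by positivity)
          _ = 1 / 2 := by field_simp
          _ < 1 := by norm_num
    have h3 : T k = 0 := by rw [hT0]; rfl
    rwa [hTa, hkk] at h3
  constructor
  · rintro ⟨r', hr', hinj⟩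
    obtain ⟨ρ₂, r₂, hρ₂, -, hch₂, hin₂⟩ := t_SHRINK n Λ z P η ρ r h ρ₁ r' hch.hρ hr'
    -- the point
    set s := ρ₂ / (2 * ‖k₀‖) with hs
    have hk0' : 0 < ‖k₀‖ := norm_pos_iff.2 hk0
    have hspos : 0 < s := div_pos hch₂.hρ (by positivity)
    have hmem : ∀ t ∈ Icc (0 : ℝ) s, chi P z + t • k₀ ∈ ball (chi P z) ρ₂ := by
      intro t ht
      rw [mem_ball, dist_eq_norm, add_sub_cancel_left, norm_smul, Real.norm_eq_abs,
        abs_of_nonneg ht.1]
      calc t * ‖k₀‖ ≤ s * ‖k₀‖ := mul_le_mul_of_nonneg_right ht.2 hk0'.le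
        _ = ρ₂ / 2 := by rw [hs]; field_simp
        _ < ρ₂ := half_lt_self hch₂.hρ
    have hconst : ∀ t ∈ Icc (0 : ℝ) s, P (η (chi P z + t • k₀)) = P (η (chi P z)) := by
      have hd : ∀ t ∈ Icc (0 : ℝ) s, HasDerivAt (fun t : ℝ => P (η (chi P z + t • k₀))) 0 t := by
        intro t ht
        have h3 := eta_hasDerivAt hch (x := chi P z) k₀ (s := t) (by
          exact ball_subset_ball hρ₂ (hmem t ht))
        have h4 := P.hasFDerivAt.comp_hasDerivAt t h3
        have h5 := key _ (ball_subset_ball hρ₂ (hmem t ht)) k₀ hk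
        rw [h5] at h4
        exact h4
      intro t ht
      have h3 := constant_of_has_deriv_right_zero (f := fun t : ℝ => P (η (chi P z + t • k₀)))
        (a := 0) (b := s) (fun t ht => (hd t ht).continuousAt.continuousWithinAt)
        (fun t ht => (hd t (Ico_subset_Icc_self ht)).hasDerivWithinAt) t ht
      simpa using h3
    have hms := hmem s ⟨hspos.le, le_rfl⟩
    have hm0 : chi P z ∈ ball (chi P z) ρ₂ := mem_ball_self hch₂.hρ
    have h3 := eq_of_same (P := P) (η := η) (x := chi P z) (k := s • k₀)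
      (by rw [map_smul, hk]) (hconst s ⟨hspos.le, le_rfl⟩)
    have h4 := hinj _ (hch₂.mem _ hms) _ (hch₂.mem _ hm0) (hin₂ _ hms) (hin₂ _ hm0) h3
    have h5 := congrArg (chi P) h4
    rw [D0H98.NL.chi_mk hP, D0H98.NL.chi_mk hP] at h5
    have h6 : s • k₀ = 0 := by simpa using h5
    rw [smul_eq_zero] at h6
    rcases h6 with h6 | h6
    · exact hspos.ne' h6
    · exact hk0 h6
  · refine ⟨r₁, hch.hr, fun w hw hwz => ?_⟩
    obtain ⟨hx, hW⟩ := hch.cover w hw hwz
    have htan := tangent_line hch hx k₀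
    rw [hW, hk, key _ hx k₀ hk, sub_self, sub_zero, sub_zero] at htan
    refine ⟨_, ?_, htan⟩
    intro h3
    have h4 := congrArg P h3
    rw [map_add, hk, key _ hx k₀ hk, add_zero, map_zero] at h4
    exact hk0 h4

end Pool.Agent.D0H98.NG
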